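import Mathlib

/-!
# Evolution equations in a graded space: definitions and basic lemmas

`Scale X H`: a real vector space `X` of smooth objects with positive semidefinite forms `B m`, `m = 0, 1, …`
(squared norms of order `m`), a Banach space `H` (in the applications a space of square integrable functions), a
linear map `ι : X → H` and smoothing operators `J n : H → X`.
`Evo S`: an evolution equation `u' = F t u` in `X` with energy estimates. The final theorem (file `Main`) says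
that it has a solution on `[0, τ]`, continuously differentiable in all the norms.
-/

namespace Pool.Agent.Helper36.EV

open Set Filter Topology

/-- graded space with smoothing operators -/
structure Scale (X H : Type) [AddCommGroup X] [Module ℝ X] [NormedAddCommGroup H]
    [NormedSpace ℝ H] where
  B : ℕ → X →ₗ[ℝ] X →ₗ[ℝ] ℝ
  ι : X →ₗ[ℝ] H
  J : ℕ → H →ₗ[ℝ] X
  ε : ℕ → ℝ
  symm : ∀ m x y, B m x y = B m y x
  nonneg : ∀ m x, 0 ≤ B m x x
  mono : ∀ m x, B m x x ≤ B (m + 1) x x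
  complete : ∀ x : ℕ → X,
    (∀ m, ∀ δ > 0, ∃ n0, ∀ n ≥ n0, ∀ k ≥ n0, B m (x n - x k) (x n - x k) ≤ δ) →
    ∃ y, ∀ m, Tendsto (fun n => B m (x n - y) (x n - y)) atTop (𝓝 0)
  interp : ∀ m, ∃ m' C, ∀ x, (B m x x) ^ 2 ≤ C * B 0 x x * B m' x x
  bι : ∃ C, ∀ x, ‖ι x‖ ^ 2 ≤ C * B 0 x x
  bJ : ∀ n m, ∃ C, ∀ h, B m (J n h) (J n h) ≤ C * ‖h‖ ^ 2
  symJ : ∀ n m x y, B m (J n (ι x)) y = B m x (J n (ι y))
  conJ : ∀ n m x, B m (J n (ι x)) (J n (ι x)) ≤ B m x x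
  errJ : ∀ n m x, B m (J n (ι x) - x) (J n (ι x) - x) ≤ (ε n) ^ 2 * B (m + 1) x x
  hε : Tendsto ε atTop (𝓝 0)

namespace Scale

variable {X H : Type} [AddCommGroup X] [Module ℝ X] [NormedAddCommGroup H] [NormedSpace ℝ H]
  (S : Scale X H)

/-- squared norm of order `m` -/
def q (m : ℕ) (x : X) : ℝ := S.B m x x

/-- norm of order `m` -/
noncomputable def nrm (m : ℕ) (x : X) : ℝ := Real.sqrt (S.q m x)

/-- convergence in all the norms -/
def Lim (x : ℕ → X) (y : X) : Prop := ∀ m, Tendsto (fun n => S.q m (x n - y)) atTop (𝓝 0)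

theorem q_nonneg (m : ℕ) (x : X) : 0 ≤ S.q m x := S.nonneg m x

theorem nrm_nonneg (m : ℕ) (x : X) : 0 ≤ S.nrm m x := Real.sqrt_nonneg _

theorem nrm_sq (m : ℕ) (x : X) : S.nrm m x ^ 2 = S.q m x := Real.sq_sqrt (S.q_nonneg m x)

theorem q_zero (m : ℕ) : S.q m 0 = 0 := by simp [q]

theorem nrm_zero (m : ℕ) : S.nrm m 0 = 0 := by simp [nrm, q_zero]

theorem q_add (m : ℕ) (x y : X) : S.q m (x + y) = S.q m x + 2 * S.B m x y + S.q m y := by
  simp only [q, map_add, LinearMap.add_apply]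
  rw [S.symm m y x]
  ring

theorem q_smul (m : ℕ) (a : ℝ) (x : X) : S.q m (a • x) = a ^ 2 * S.q m x := by
  simp only [q, map_smul, LinearMap.smul_apply, smul_eq_mul]
  ring

theorem q_neg (m : ℕ) (x : X) : S.q m (-x) = S.q m x := by simp [q]

theorem q_sub_comm (m : ℕ) (x y : X) : S.q m (x - y) = S.q m (y - x) := by
  rw [← neg_sub, q_neg]

theorem nrm_smul (m : ℕ) (a : ℝ) (x : X) : S.nrm m (a • x) = |a| * S.nrm m x := by
  rw [nrm, q_smul, Real.sqrt_mul (sq_nonneg a), Real.sqrt_sq_eq_abs, nrm]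

theorem nrm_neg (m : ℕ) (x : X) : S.nrm m (-x) = S.nrm m x := by rw [nrm, q_neg, nrm]

theorem nrm_sub_comm (m : ℕ) (x y : X) : S.nrm m (x - y) = S.nrm m (y - x) := by
  rw [nrm, q_sub_comm, nrm]

/-- Cauchy-Schwarz -/
theorem B_sq_le (m : ℕ) (x y : X) : S.B m x y ^ 2 ≤ S.q m x * S.q m y := by
  have h : ∀ t : ℝ, 0 ≤ S.q m y * (t * t) + 2 * S.B m x y * t + S.q m x := by
    intro t
    have h1 := S.q_nonneg m (x + t • y)
    rw [q_add, q_smul, map_smul, smul_eq_mul] at h1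
    nlinarith
  have h2 := discrim_le_zero h
  rw [discrim] at h2
  nlinarith

theorem B_le (m : ℕ) (x y : X) : S.B m x y ≤ S.nrm m x * S.nrm m y := by
  have h := S.B_sq_le m x y
  rw [← nrm_sq, ← nrm_sq, ← mul_pow] at h
  exact le_trans (le_abs_self _)
    (abs_le_of_sq_le_sq h (mul_nonneg (S.nrm_nonneg _ _) (S.nrm_nonneg _ _)))

theorem abs_B_le (m : ℕ) (x y : X) : |S.B m x y| ≤ S.nrm m x * S.nrm m y := by
  have h := S.B_sq_le m x y
  rw [← nrm_sq, ← nrm_sq, ← mul_pow] at h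
  exact abs_le_of_sq_le_sq h (mul_nonneg (S.nrm_nonneg _ _) (S.nrm_nonneg _ _))

theorem nrm_add_le (m : ℕ) (x y : X) : S.nrm m (x + y) ≤ S.nrm m x + S.nrm m y := by
  have h1 : S.nrm m (x + y) ^ 2 ≤ (S.nrm m x + S.nrm m y) ^ 2 := by
    rw [nrm_sq, q_add]
    nlinarith [S.B_le m x y, S.nrm_sq m x, S.nrm_sq m y]
  exact le_of_sq_le_sq h1 (add_nonneg (S.nrm_nonneg _ _) (S.nrm_nonneg _ _))

theorem nrm_sub_le (m : ℕ) (x y : X) : S.nrm m (x - y) ≤ S.nrm m x + S.nrm m y := by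
  rw [sub_eq_add_neg]
  exact (S.nrm_add_le m x (-y)).trans (by rw [nrm_neg])

/-- triangle inequality -/
theorem nrm_tri (m : ℕ) (x y z : X) : S.nrm m (x - z) ≤ S.nrm m (x - y) + S.nrm m (y - z) := by
  have h : x - z = (x - y) + (y - z) := by abel
  rw [h]
  exact S.nrm_add_le _ _ _

theorem q_mono {m k : ℕ} (h : m ≤ k) (x : X) : S.q m x ≤ S.q k x := by
  induction k, h using Nat.le_induction with
  | base => exact le_rfl
  | succ k _ ih => exact ih.trans (S.mono k x)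

theorem nrm_mono {m k : ℕ} (h : m ≤ k) (x : X) : S.nrm m x ≤ S.nrm k x :=
  Real.sqrt_le_sqrt (S.q_mono h x)

theorem nrm_le_of_q_le {m : ℕ} {x : X} {a : ℝ} (h : S.q m x ≤ a ^ 2) (ha : 0 ≤ a) :
    S.nrm m x ≤ a := by
  rw [nrm]
  exact Real.sqrt_le_iff.2 ⟨ha, h⟩

theorem q_le_of_nrm_le {m : ℕ} {x : X} {a : ℝ} (h : S.nrm m x ≤ a) : S.q m x ≤ a ^ 2 := by
  rw [← nrm_sq]
  have := S.nrm_nonneg m x
  exact pow_le_pow_left₀ this h 2

/-- `‖ι x‖ ≤ C * nrm 0 x` -/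
theorem bι' : ∃ C, 0 ≤ C ∧ ∀ x, ‖S.ι x‖ ≤ C * S.nrm 0 x := by
  obtain ⟨C, hC⟩ := S.bι
  refine ⟨Real.sqrt |C|, Real.sqrt_nonneg _, fun x => ?_⟩
  rw [nrm, ← Real.sqrt_mul (abs_nonneg C)]
  apply Real.le_sqrt_of_sq_le
  refine (hC x).trans ?_
  exact mul_le_mul_of_nonneg_right (le_abs_self C) (S.nonneg 0 x)

/-- `nrm m (J n h) ≤ C * ‖h‖` -/
theorem bJ' (n m : ℕ) : ∃ C, 0 ≤ C ∧ ∀ h, S.nrm m (S.J n h) ≤ C * ‖h‖ := by
  obtain ⟨C, hC⟩ := S.bJ n m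
  refine ⟨Real.sqrt |C|, Real.sqrt_nonneg _, fun h => ?_⟩
  apply S.nrm_le_of_q_le _ (mul_nonneg (Real.sqrt_nonneg _) (norm_nonneg _))
  rw [mul_pow, Real.sq_sqrt (abs_nonneg C)]
  refine (hC h).trans ?_
  exact mul_le_mul_of_nonneg_right (le_abs_self C) (sq_nonneg _)

theorem nrm_J_le (n m : ℕ) (x : X) : S.nrm m (S.J n (S.ι x)) ≤ S.nrm m x :=
  Real.sqrt_le_sqrt (S.conJ n m x)

theorem nrm_err (n m : ℕ) (x : X) :
    S.nrm m (S.J n (S.ι x) - x) ≤ |S.ε n| * S.nrm (m + 1) x := by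
  apply S.nrm_le_of_q_le _ (mul_nonneg (abs_nonneg _) (S.nrm_nonneg _ _))
  rw [mul_pow, sq_abs, nrm_sq]
  exact S.errJ n m x

/-- the continuous bilinear form `(h, k) ↦ B m (J n h) (J n k)` on `H` -/
theorem exists_bil (n m : ℕ) : ∃ b : H →L[ℝ] H →L[ℝ] ℝ, ∀ h k,
    b h k = S.B m (S.J n h) (S.J n k) := by
  obtain ⟨C, hC0, hC⟩ := S.bJ' n m
  refine ⟨LinearMap.mkContinuous₂ ((S.B m).compl₁₂ (S.J n) (S.J n)) (C * C) fun h k => ?_,
    fun h k => rfl⟩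
  rw [LinearMap.compl₁₂_apply, Real.norm_eq_abs]
  refine (S.abs_B_le m _ _).trans ?_
  calc S.nrm m (S.J n h) * S.nrm m (S.J n k) ≤ (C * ‖h‖) * (C * ‖k‖) := by
        exact mul_le_mul (hC h) (hC k) (S.nrm_nonneg _ _) (mul_nonneg hC0 (norm_nonneg _))
    _ = C * C * ‖h‖ * ‖k‖ := by ring

/-- the continuous linear form `h ↦ B m z (J n h)` on `H` -/
theorem exists_lin (n m : ℕ) (z : X) : ∃ b : H →L[ℝ] ℝ, ∀ h, b h = S.B m z (S.J n h) := by
  obtain ⟨C, hC0, hC⟩ := S.bJ' n m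
  refine ⟨LinearMap.mkContinuous ((S.B m z).comp (S.J n)) (S.nrm m z * C) fun h => ?_,
    fun h => rfl⟩
  rw [LinearMap.comp_apply, Real.norm_eq_abs]
  refine (S.abs_B_le m _ _).trans ?_
  rw [mul_assoc]
  exact mul_le_mul_of_nonneg_left (hC h) (S.nrm_nonneg _ _)

/-- derivative of `B m z (y t)` along `y t = u + J n (h t)` -/
theorem hasDeriv_lin (n m : ℕ) (z u : X) {h : ℝ → H} {h' : H} {I : Set ℝ} {t : ℝ}
    (hd : HasDerivWithinAt h h' I t) :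
    HasDerivWithinAt (fun s => S.B m z (u + S.J n (h s))) (S.B m z (S.J n h')) I t := by
  obtain ⟨b, hb⟩ := S.exists_lin n m z
  have h1 : (fun s => S.B m z (u + S.J n (h s))) = fun s => S.B m z u + b (h s) := by
    funext s
    rw [map_add, hb]
  rw [h1, ← hb]
  exact (b.hasFDerivAt.comp_hasDerivWithinAt t hd).const_add _

/-- derivative of `q m (y t)` along `y t = u + J n (h t)` -/
theorem hasDeriv_q (n m : ℕ) (u : X) {h : ℝ → H} {h' : H} {I : Set ℝ} {t : ℝ}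
    (hd : HasDerivWithinAt h h' I t) :
    HasDerivWithinAt (fun s => S.q m (u + S.J n (h s)))
      (2 * S.B m (u + S.J n (h t)) (S.J n h')) I t := by
  obtain ⟨b, hb⟩ := S.exists_bil n m
  obtain ⟨l, hl⟩ := S.exists_lin n m u
  have h1 : (fun s => S.q m (u + S.J n (h s))) =
      fun s => S.q m u + 2 * l (h s) + b (h s) (h s) := by
    funext s
    rw [q_add, hl, hb, q, q]
  rw [h1]
  have h2 : HasDerivWithinAt (fun s => l (h s)) (l h') I t :=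
    l.hasFDerivAt.comp_hasDerivWithinAt t hd
  have h3 : HasDerivWithinAt (fun s => b (h s) (h s)) (b h' (h t) + b (h t) h') I t :=
    (b.hasFDerivAt.comp_hasDerivWithinAt t hd).clm_apply hd
  have h4 := ((h2.const_mul 2).const_add (S.q m u)).add h3
  have h5 : 2 * l h' + (b h' (h t) + b (h t) h') =
      2 * S.B m (u + S.J n (h t)) (S.J n h') := by
    rw [hb, hb, hl, map_add, LinearMap.add_apply, S.symm m (S.J n h') (S.J n (h t))]
    ring
  rw [← h5]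
  exact h4

end Scale

variable {X H : Type} [AddCommGroup X] [Module ℝ X] [NormedAddCommGroup H] [NormedSpace ℝ H]

/-- An evolution equation `u' = F t u` on `[0, T]` with energy estimates on the set of `x` with
`q s x ≤ R`, `q m0 (x - u0) ≤ r`. -/
structure Evo (S : Scale X H) where
  F : ℝ → X → X
  T : ℝ
  τ : ℝ
  u0 : X
  s : ℕ
  m0 : ℕ
  m4 : ℕ
  R : ℝ
  r : ℝ
  C1 : ℝ
  C2 : ℝ
  hτ : 0 < τ
  hτT : τ ≤ T
  hC1 : 0 ≤ C1
  hr : 0 < r
  /-- sequential continuity -/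
  F0 : ∀ (t : ℕ → ℝ) (x : ℕ → X) (t' : ℝ) (x' : X), (∀ n, t n ∈ Icc 0 T) → t' ∈ Icc 0 T →
    Tendsto t atTop (𝓝 t') → S.Lim x x' → S.Lim (fun n => F (t n) (x n)) (F t' x')
  /-- bounds with a loss of derivatives -/
  F1 : ∀ m, ∃ m', ∀ L, ∃ C, ∀ t ∈ Icc 0 T, ∀ x, S.q m' x ≤ L → S.q m (F t x) ≤ C
  /-- Lipschitz bound with a loss of derivatives -/
  F2 : ∃ m', ∀ L, ∃ C, ∀ t ∈ Icc 0 T, ∀ x y, S.q m' x ≤ L → S.q m' y ≤ L →
    S.q 0 (F t x - F t y) ≤ C * S.q m' (x - y)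
  /-- energy estimate of order `s` -/
  F3s : ∀ t ∈ Icc 0 T, ∀ x, S.q s x ≤ R → S.q m0 (x - u0) ≤ r →
    S.B s x (F t x) ≤ C1 * (1 + S.q s x)
  /-- energy estimate of order `m > s` -/
  F3 : ∀ m > s, ∀ L, ∃ C, ∀ t ∈ Icc 0 T, ∀ x, S.q s x ≤ R → S.q m0 (x - u0) ≤ r →
    S.q (m - 1) x ≤ L → S.B m x (F t x) ≤ C * (1 + S.q m x)
  /-- difference estimate of order `0` -/
  F4 : ∀ L, ∃ C, ∀ t ∈ Icc 0 T, ∀ x y, S.q s x ≤ R → S.q m0 (x - u0) ≤ r →
    S.q s y ≤ R → S.q m0 (y - u0) ≤ r → S.q m4 x ≤ L → S.q m4 y ≤ L →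
    S.B 0 (x - y) (F t x - F t y) ≤ C * S.q 0 (x - y)
  F5 : ∀ t ∈ Icc 0 T, ∀ x, S.q s x ≤ R → S.q m0 (x - u0) ≤ r → S.q m0 (F t x) ≤ C2
  small : Real.exp (2 * C1 * τ) * (1 + S.q s u0) < 1 + R
  small' : C2 * τ ^ 2 < r

namespace Evo

variable {S : Scale X H} (E : Evo S)

/-- the set where the energy estimates hold -/
def Adm (x : X) : Prop := S.q E.s x ≤ E.R ∧ S.q E.m0 (x - E.u0) ≤ E.r

/-- the approximate solution `y = u0 + J n h` -/
def ap (n : ℕ) (h : ℝ → H) (t : ℝ) : X := E.u0 + S.J n (h t)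

/-- the smoothed approximate solution `J n (ι y)` -/
def sap (n : ℕ) (h : ℝ → H) (t : ℝ) : X := S.J n (S.ι (E.ap n h t))

/-- `h` solves the regularized equation number `n` on `[0, τ]`, with the a priori bounds -/
structure Sol (n : ℕ) (h : ℝ → H) : Prop where
  h0 : h 0 = 0
  der : ∀ t ∈ Icc 0 E.τ, HasDerivWithinAt h (S.ι (E.F t (E.sap n h t))) (Icc 0 E.τ) t
  adm : ∀ t ∈ Icc 0 E.τ, E.Adm (E.ap n h t)
  adm' : ∀ t ∈ Icc 0 E.τ, E.Adm (E.sap n h t)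

/-- the solution of the equation on `[0, τ]`, differentiable in all the norms -/
structure IsSol (u : ℝ → X) : Prop where
  init : u 0 = E.u0
  adm : ∀ t ∈ Icc 0 E.τ, E.Adm (u t)
  bdd : ∀ m, ∃ L, ∀ t ∈ Icc 0 E.τ, S.q m (u t) ≤ L
  /-- for all `δ > 0` there is `η > 0` with
  `q m (u s' - u t - (s' - t) F t (u t)) ≤ δ (s' - t)^2` if `|s' - t| ≤ η` -/
  der : ∀ m, ∀ t ∈ Icc 0 E.τ, ∀ δ > 0, ∃ η > 0, ∀ s' ∈ Icc 0 E.τ, |s' - t| ≤ η →
    S.q m (u s' - u t - (s' - t) • E.F t (u t)) ≤ δ * (s' - t) ^ 2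

end Evo

end Pool.Agent.Helper36.EV

namespace Pool.Agent.Helper36.EV

/-- the final existence theorem (proved from the packets of `EV/Goals.lean`) -/
def G_MAIN' : Prop := ∀ (X H : Type) [AddCommGroup X] [Module ℝ X]
  [NormedAddCommGroup H] [NormedSpace ℝ H] [CompleteSpace H] (S : Scale X H) (E : Evo S),
  ∃ u : ℝ → X, E.IsSol u

end Pool.Agent.Helper36.EV
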