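import Pool.Agent.Helper36.EV.Base

/-!
# Evolution equations in a graded space: the statements of the parts of the proof

Read `Base` first: `S.q m x = B m x x` (squared norm), `S.nrm m x` its square root, `S.B_le`, `S.nrm_add_le`,
`S.nrm_tri`, `S.nrm_mono`, `S.nrm_J_le`, `S.nrm_err`, `S.bι'`, `S.bJ'`, `S.hasDeriv_lin`, `S.hasDeriv_q`.
Write `J = J n`, `ι` as in `Base`. For `E : Evo S` and `h : ℝ → H` let `y t = E.ap n h t = u0 + J (h t)` and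
`x t = E.sap n h t = J (ι (y t))`.
-/

namespace Pool.Agent.Helper36.EV

open Set Filter Topology

/-- GW: Gronwall and the ODE existence theorem with a barrier.

(1) If `f` has the derivative `f' t ≤ a * f t + b` (within `[0, τ]`), `a, b ≥ 0`, then
`f t ≤ exp (a t) (f 0 + b t)`.
PROOF: `exp (-a t) f t - b t` has the derivative `exp (-a t) (f' - a f) - b ≤ 0`, so it is antitone on `[0, τ]`
(`antitoneOn_of_deriv_nonpos` or `image_le_of_deriv_right_le_deriv_boundary`); multiply by `exp (a t) ≥ 1`.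

(2) Existence. `Ψ` is continuous on `[0, τ] × H` and Lipschitz on balls, uniformly in `t`; `C` is closed,
`U ⊆ C` open, `0 ∈ U`, `C ⊆ closedBall 0 ρ`, and every solution on a shorter interval `[0, t1]` that stays in `C`
ends in `U`. Then there is a solution on `[0, τ]` that stays in `C`.
PROOF: let `P h = h` if `‖h‖ ≤ ρ` and `P h = (ρ / ‖h‖) • h` otherwise; `P` is `2`-Lipschitz with values in
`closedBall 0 ρ` (`ρ ≥ 0` since `0 ∈ C`). `Φ t h = Ψ t (P h)` is continuous on `[0, τ] × H`, globally Lipschitz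
in `h` and bounded by a constant `M` (`‖Ψ t (P h)‖ ≤ ‖Ψ t 0‖ + L ρ`, and `‖Ψ t 0‖` is bounded since it is continuous
in `t`). By Picard-Lindelöf (`IsPicardLindelof` with `a = M τ`, `r = 0`) there is a solution `h` of
`h' = Φ t h`, `h 0 = 0` on `[0, τ]`. Let `t1 = sSup {t ∈ [0, τ] | ∀ s ∈ [0, t], h s ∈ C}`. Since `C` is closed,
`h s ∈ C` on `[0, t1]`, there `P (h s) = h s`, so `h` is a solution of `h' = Ψ t h` on `[0, t1]` and
`h t1 ∈ U`; if `t1 < τ` then `h s ∈ U ⊆ C` for `s` slightly larger than `t1`, a contradiction. -/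
def G_GW : Prop :=
  (∀ (f f' : ℝ → ℝ) (a b τ : ℝ), 0 ≤ a → 0 ≤ b →
    (∀ t ∈ Icc 0 τ, HasDerivWithinAt f (f' t) (Icc 0 τ) t ∧ f' t ≤ a * f t + b) →
    ∀ t ∈ Icc 0 τ, f t ≤ Real.exp (a * t) * (f 0 + b * t)) ∧
  ∀ (H : Type) [NormedAddCommGroup H] [NormedSpace ℝ H] [CompleteSpace H] (Ψ : ℝ → H → H)
    (τ ρ : ℝ) (C U : Set H), 0 < τ →
    ContinuousOn (fun p : ℝ × H => Ψ p.1 p.2) (Icc 0 τ ×ˢ univ) →
    (∀ a : ℝ, ∃ L : ℝ, ∀ t ∈ Icc 0 τ, ∀ h k : H, ‖h‖ ≤ a → ‖k‖ ≤ a →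
      ‖Ψ t h - Ψ t k‖ ≤ L * ‖h - k‖) →
    IsClosed C → IsOpen U → U ⊆ C → C ⊆ Metric.closedBall 0 ρ → (0 : H) ∈ U →
    (∀ t1 ∈ Icc 0 τ, ∀ h : ℝ → H, h 0 = 0 →
      (∀ t ∈ Icc 0 t1, h t ∈ C ∧ HasDerivWithinAt h (Ψ t (h t)) (Icc 0 t1) t) → h t1 ∈ U) →
    ∃ h : ℝ → H, h 0 = 0 ∧
      ∀ t ∈ Icc 0 τ, h t ∈ C ∧ HasDerivWithinAt h (Ψ t (h t)) (Icc 0 τ) t

/-- REG: the right side of the regularized equation
`Ψ t h = ι (F t (J (ι (u0 + J h))))` is continuous on `[0, T] × H` and Lipschitz on balls.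
PROOF: let `X h = J (ι (u0 + J h))`. `X h - X k = J (ι (J (h - k)))`, so with `S.nrm_J_le` and `S.bJ'`,
`nrm m (X h - X k) ≤ C_m ‖h - k‖` for every `m`, and `nrm m (X h) ≤ nrm m u0 + C_m ‖h‖`. With `F2` (its `m'`,
`L` a bound for `q m' (X h)`, `‖h‖ ≤ a`) and `S.bι'` we get the Lipschitz bound
`‖Ψ t h - Ψ t k‖ ≤ Cι √(C) C_{m'} ‖h - k‖`. Continuity at `(t, h)`: by sequences (`continuousOn_iff` for a
metric space, `tendsto_nhdsWithin..`, or `SeqContinuous`): if `(t_j, h_j) → (t, h)` then `X h_j → X h` in the sense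
of `S.Lim`, so by `F0` (`S.Lim (F t_j (X h_j)) (F t (X h))`, order `0`) and `S.bι'`, `Ψ t_j h_j → Ψ t h`. -/
def G_REG : Prop := ∀ (X H : Type) [AddCommGroup X] [Module ℝ X] [NormedAddCommGroup H]
  [NormedSpace ℝ H] (S : Scale X H) (E : Evo S) (n : ℕ),
  ContinuousOn (fun p : ℝ × H => S.ι (E.F p.1 (S.J n (S.ι (E.u0 + S.J n p.2)))))
    (Icc 0 E.T ×ˢ univ) ∧
  ∀ a : ℝ, ∃ L : ℝ, ∀ t ∈ Icc 0 E.T, ∀ h k : H, ‖h‖ ≤ a → ‖k‖ ≤ a →
    ‖S.ι (E.F t (S.J n (S.ι (E.u0 + S.J n h)))) -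
      S.ι (E.F t (S.J n (S.ι (E.u0 + S.J n k))))‖ ≤ L * ‖h - k‖

/-- GAL: solution of the regularized equations with the a priori bounds, assuming GW and REG.
PROOF: `C2 τ^2 < r`; choose `r1` with `C2 τ^2 < r1 < r`, `0 < r1` (note `0 ≤ C2`, because `x = u0` is admissible:
`q s u0 < R` by `small` and `exp ≥ 1`, `0 < r` is `hr`; so `0 ≤ q m0 (F 0 u0) ≤ C2`). Let
`n` be so large that `√r1 + |ε n| nrm (m0 + 1) u0 ≤ √r`. If `q s y ≤ R` and `q m0 (y - u0) ≤ r1` then `x = J (ι y)`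
satisfies `q s x ≤ R` (`conJ`) and
`nrm m0 (x - u0) ≤ nrm m0 (J (ι (y - u0))) + nrm m0 (J (ι u0) - u0) ≤ √r1 + |ε n| nrm (m0 + 1) u0 ≤ √r`,
so `E.Adm x`. Apply part (2) of GW to `Ψ` of REG (restricted to `[0, τ]`), `ρ = √(Cι² C2) τ + 1`,
`C = {h | ‖h‖ ≤ ρ, q s (u0 + J h) ≤ R, q m0 (J h) ≤ r1}`, `U` the same with `<` (these are closed and open since
`h ↦ q m (u0 + J h)` and `h ↦ q m (J h)` are continuous, see `S.exists_bil`, `S.exists_lin`). Barrier: let `h` be a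
solution on `[0, t1]` in `C`, `y`, `x` as above, `x` is admissible. (i) `φ = q s y` has the derivative
`2 B s y (J (ι (F t x))) = 2 B s x (F t x) ≤ 2 C1 (1 + q s x) ≤ 2 C1 (1 + φ)` (`hasDeriv_q`, `symJ`, `F3s`, `conJ`),
so `1 + φ t1 ≤ exp (2 C1 τ) (1 + q s u0) < 1 + R` by part (1) of GW. (ii) for `z = J (h t1)` the function
`t ↦ B m0 z (J (h t))` has the derivative `B m0 z (J (ι (F t x))) ≤ nrm m0 z √C2` (`F5`, `nrm_J_le`), so
`q m0 z ≤ t1 nrm m0 z √C2`, hence `q m0 z ≤ t1^2 C2 < r1`. (iii) `‖h'‖ = ‖ι (F t x)‖ ≤ Cι nrm 0 (F t x) ≤ Cι √C2`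
(`nrm_mono`), so `‖h t1‖ ≤ Cι √C2 τ < ρ`. Finally `E.Adm (ap ..)` since `r1 ≤ r`. -/
def G_GAL : Prop := G_GW → G_REG → ∀ (X H : Type) [AddCommGroup X] [Module ℝ X]
  [NormedAddCommGroup H] [NormedSpace ℝ H] [CompleteSpace H] (S : Scale X H) (E : Evo S),
  ∃ n0 : ℕ, ∀ n ≥ n0, ∃ h : ℝ → H, E.Sol n h

/-- HIGH: bounds in all the norms, uniform in `n`, assuming GW.
PROOF: it is enough to do `m ≥ s` (`S.q_mono`). Induction on `m`: for `m = s` take `L = R`. Step from `m` to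
`m + 1`: let `C ≥ 0` be the constant of `F3` for `m + 1` and the bound `L` of order `m`. The function
`φ t = q (m + 1) (y t)` has the derivative `2 B (m+1) y (J (ι (F t x))) = 2 B (m+1) x (F t x) ≤
2 C (1 + q (m+1) x) ≤ 2 C (1 + φ t)` (`S.hasDeriv_q`, `symJ`, `conJ`; `q m x ≤ q m y ≤ L`), so by (1) of GW
`φ t ≤ exp (2 C τ) (1 + q (m+1) u0)`-like bound, independent of `n`. The bound for `x = J (ι y)` follows by
`conJ`. -/
def G_HIGH : Prop := G_GW → ∀ (X H : Type) [AddCommGroup X] [Module ℝ X]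
  [NormedAddCommGroup H] [NormedSpace ℝ H] (S : Scale X H) (E : Evo S) (m : ℕ),
  ∃ L, ∀ n h, E.Sol n h → ∀ t ∈ Icc 0 E.τ, S.q m (E.ap n h t) ≤ L ∧ S.q m (E.sap n h t) ≤ L

/-- CAU: the approximate solutions form a Cauchy sequence in all the norms, uniformly in time, assuming GW and
HIGH.
PROOF: let `h`, `k` be solutions number `n`, `l`; `y, x` and `y', x'` their approximate and smoothed
approximate solutions, `d = y - y'`. `q 0 d` has the derivative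
`2 B 0 d (J_n ι F(x) - J_l ι F(x'))` (write `d t = J_n h(t) - J_l k(t)`; use `S.exists_bil`-like computation, or
apply `hasDeriv_q`, `hasDeriv_lin` to the expansion `q 0 (y - y') = q 0 y - 2 B 0 y y' + q 0 y'`; the mixed term
`(h, k) ↦ B 0 (J_n h) (J_l k)` is a bounded bilinear form in the same way as in `exists_bil`). Since
`B 0 d (J_n ι F(x)) = B 0 (J_n ι d) (F x)`, `J_n ι d = (x - x') + (J_l ι y' - J_n ι y')` and
`J_l ι d = (x - x') + (J_l ι y - J_n ι y)`, the derivative is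
`2 B 0 (x - x') (F x - F x') + 2 B 0 (J_l ι y' - J_n ι y') (F x) - 2 B 0 (J_l ι y - J_n ι y) (F x')`
`≤ 2 C q 0 (x - x') + 4 (|ε n| + |ε l|) L1 K` where `C` is from `F4` (with the bounds of order `m4` from HIGH),
`nrm 0 (F x), nrm 0 (F x') ≤ K` (from `F1`, HIGH), `nrm 1 y, nrm 1 y' ≤ L1`. Moreover
`nrm 0 (x - x') ≤ nrm 0 d + (|ε n| + |ε l|) L1`. So `q 0 d` satisfies `φ' ≤ 4 C φ + C' (|ε n| + |ε l|)` (for
`|ε| ≤ 1`), `φ 0 = 0`, and by (1) of GW `φ t ≤ C'' (|ε n| + |ε l|)`. For order `m` use `interp`: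
`(q m d)^2 ≤ C q 0 d q m' d` and `q m' d ≤ 4 L`. -/
def G_CAU : Prop := G_GW → G_HIGH → ∀ (X H : Type) [AddCommGroup X] [Module ℝ X]
  [NormedAddCommGroup H] [NormedSpace ℝ H] (S : Scale X H) (E : Evo S) (m : ℕ),
  ∀ δ > 0, ∃ n1 : ℕ, ∀ n ≥ n1, ∀ l ≥ n1, ∀ h k, E.Sol n h → E.Sol l k →
    ∀ t ∈ Icc 0 E.τ, S.q m (E.ap n h t - E.ap l k t) ≤ δ

/-- LIM: passage to the limit, assuming HIGH and CAU: existence of the solution.
PROOF: let `h n` be a solution number `n` (`n ≥ n0`; for `n < n0` take anything), `y n`, `x n` as above. By CAU and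
`complete` (applied to the sequence `y (n0 + n) t`) there is `u t` with `S.Lim (fun n => y n t) (u t)` for every
`t ∈ [0, τ]`, and by `nrm_tri`, letting `l → ∞`, `nrm m (y n t - u t) ≤ δ` for `n ≥ n1(m, δ)` and ALL
`t ∈ [0, τ]`. `y n 0 = u0` and we may define `u 0 = u0` (the norm of `y n 0 - u0 = J n 0` is `0`). `u t` is
admissible and bounded in all norms by passing to the limit in `nrm`. (a) Uniform continuity: for `t ≤ s'`,
`z = y n s' - y n t`, the function `σ ↦ B m z (y n σ)` has the derivative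
`B m z (J ι F(x n σ)) ≤ nrm m z * K_m` with `K_m` from `F1`, HIGH; so `q m z ≤ (s' - t) nrm m z K_m`,
`nrm m z ≤ K_m |s' - t|`, and the same for `u`. (b) Claim: for all `m`, `t`, `δ > 0` there are `η > 0` and `N` such
that `nrm m (J n (ι (F σ (x n σ))) - F t (u t)) ≤ δ` for all `n ≥ N`, `σ ∈ [0, τ]` with `|σ - t| ≤ η`. By
`nrm_err` and `F1` it is enough for `F σ (x n σ) - F t (u t)`. Otherwise there are `σ_j → t`, `n_j → ∞` with
`nrm m (F σ_j (x (n_j) σ_j) - F t (u t)) > δ`; but `nrm m (x (n_j) σ_j - u t) ≤ |ε| L + nrm m (y (n_j) σ_j - u σ_j)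
+ nrm m (u σ_j - u t) → 0` for all `m`, a contradiction to `F0`. (c) With
`z = y n s' - y n t - (s' - t) • F t (u t)` and the mean value theorem for `σ ↦ B m z (y n σ) - σ B m z (F t (u t))`
between `t` and `s'`: `nrm m z ≤ |s' - t| δ` for `|s' - t| ≤ η`, `n ≥ N`; let `n → ∞`. -/
def G_LIM : Prop := G_HIGH → G_CAU → ∀ (X H : Type) [AddCommGroup X] [Module ℝ X]
  [NormedAddCommGroup H] [NormedSpace ℝ H] (S : Scale X H) (E : Evo S),
  (∃ n0 : ℕ, ∀ n ≥ n0, ∃ h : ℝ → H, E.Sol n h) → ∃ u : ℝ → X, E.IsSol u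

/-- the final theorem -/
def G_MAIN : Prop := ∀ (X H : Type) [AddCommGroup X] [Module ℝ X]
  [NormedAddCommGroup H] [NormedSpace ℝ H] [CompleteSpace H] (S : Scale X H) (E : Evo S),
  ∃ u : ℝ → X, E.IsSol u

/-- PROD (useful rules for solutions), assuming GW. `Dif u u' t` says that `u` is differentiable at `t` within
`[0, τ]` in the norm of order `m`. (a) then `t ↦ B m (u t) (v t)` has the derivative
`B m (u' ) (v t) + B m (u t) v'`; (b) uniqueness: two curves with `u' = F t u`, `v' = F t v`, `u 0 = v 0` and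
`B m (u - v) (F t u - F t v) ≤ C q m (u - v)` satisfy `q m (u t - v t) = 0`.
PROOF: (a) expand the difference quotient, Cauchy-Schwarz `S.abs_B_le`; (b) (a) for `u - v` and (1) of GW with
`b = 0`. -/
def G_PROD : Prop := G_GW → ∀ (X H : Type) [AddCommGroup X] [Module ℝ X]
  [NormedAddCommGroup H] [NormedSpace ℝ H] (S : Scale X H) (m : ℕ) (τ : ℝ),
  (∀ (u v : ℝ → X) (u' v' : X), ∀ t ∈ Icc 0 τ,
    (∀ δ > 0, ∃ η > 0, ∀ s' ∈ Icc 0 τ, |s' - t| ≤ η →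
      S.q m (u s' - u t - (s' - t) • u') ≤ δ * (s' - t) ^ 2) →
    (∀ δ > 0, ∃ η > 0, ∀ s' ∈ Icc 0 τ, |s' - t| ≤ η →
      S.q m (v s' - v t - (s' - t) • v') ≤ δ * (s' - t) ^ 2) →
    HasDerivWithinAt (fun s => S.B m (u s) (v s)) (S.B m u' (v t) + S.B m (u t) v') (Icc 0 τ) t) ∧
  (∀ (u v u' v' : ℝ → X) (C : ℝ),
    (∀ t ∈ Icc 0 τ, ∀ δ > 0, ∃ η > 0, ∀ s' ∈ Icc 0 τ, |s' - t| ≤ η →
      S.q m (u s' - u t - (s' - t) • u' t) ≤ δ * (s' - t) ^ 2) →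
    (∀ t ∈ Icc 0 τ, ∀ δ > 0, ∃ η > 0, ∀ s' ∈ Icc 0 τ, |s' - t| ≤ η →
      S.q m (v s' - v t - (s' - t) • v' t) ≤ δ * (s' - t) ^ 2) →
    (∀ t ∈ Icc 0 τ, S.B m (u t - v t) (u' t - v' t) ≤ C * S.q m (u t - v t)) →
    S.q m (u 0 - v 0) = 0 → ∀ t ∈ Icc 0 τ, S.q m (u t - v t) = 0)

end Pool.Agent.Helper36.EV
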