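import Pool.Agent.Helper43.EV.Goals

set_option autoImplicit false
set_option linter.unusedSectionVars false

namespace Pool.Agent.Helper36.EV.LIN

open Module Pool.Agent.Lead.Ev Pool.Agent.Helper43.EV
open Pool.Agent.Helper3.QGr (prj prj_coe prj_z prj_mem eA eA_apply eB eB_apply lft lft_apply)

section

variable {F V : Type} [Field F] [Finite F] [AddCommGroup V] [Module F V] [FiniteDimensional F V]
  (ψ : Dual F V) (z : V) (hz : ψ z = 1)

/-- the linear map -/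
noncomputable def ef (g : LinearMap.ker ψ →ₗ[F] LinearMap.ker ψ) : V →ₗ[F] V :=
  (LinearMap.ker ψ).subtype ∘ₗ g ∘ₗ prj ψ z hz + ψ.smulRight z

theorem ef_apply (g : LinearMap.ker ψ →ₗ[F] LinearMap.ker ψ) (x : V) :
    ef ψ z hz g x = ((g (prj ψ z hz x) : LinearMap.ker ψ) : V) + ψ x • z := rfl

theorem psi_ef (g : LinearMap.ker ψ →ₗ[F] LinearMap.ker ψ) (x : V) :
    ψ (ef ψ z hz g x) = ψ x := by
  have h : ψ ((g (prj ψ z hz x) : LinearMap.ker ψ) : V) = 0 := (g (prj ψ z hz x)).2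
  rw [ef_apply, map_add, h, map_smul, hz, zero_add, smul_eq_mul, mul_one]

theorem prj_ef (g : LinearMap.ker ψ →ₗ[F] LinearMap.ker ψ) (x : V) :
    prj ψ z hz (ef ψ z hz g x) = g (prj ψ z hz x) := by
  rw [ef_apply, map_add, prj_mem, map_smul, prj_z, smul_zero, add_zero]

theorem ef_comp (g g' : LinearMap.ker ψ →ₗ[F] LinearMap.ker ψ) (x : V) :
    ef ψ z hz g (ef ψ z hz g' x) = ef ψ z hz (g ∘ₗ g') x := by
  rw [ef_apply ψ z hz g, prj_ef, psi_ef, ef_apply]
  rfl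

theorem ef_id (x : V) : ef ψ z hz LinearMap.id x = x := by
  rw [ef_apply, LinearMap.id_apply, prj_coe, sub_add_cancel]

/-- the linear equivalence -/
noncomputable def EE (g : LinearMap.ker ψ ≃ₗ[F] LinearMap.ker ψ) : V ≃ₗ[F] V :=
  LinearEquiv.ofLinearMap (ef ψ z hz (g : LinearMap.ker ψ →ₗ[F] LinearMap.ker ψ))
    (ef ψ z hz (g.symm : LinearMap.ker ψ →ₗ[F] LinearMap.ker ψ))
    (by
      apply LinearMap.ext
      intro x
      rw [LinearMap.comp_apply, ef_comp, LinearMap.id_apply]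
      have h : (g : LinearMap.ker ψ →ₗ[F] LinearMap.ker ψ) ∘ₗ
          (g.symm : LinearMap.ker ψ →ₗ[F] LinearMap.ker ψ) = LinearMap.id := by
        apply LinearMap.ext
        intro y
        simp
      rw [h, ef_id])
    (by
      apply LinearMap.ext
      intro x
      rw [LinearMap.comp_apply, ef_comp, LinearMap.id_apply]
      have h : (g.symm : LinearMap.ker ψ →ₗ[F] LinearMap.ker ψ) ∘ₗ
          (g : LinearMap.ker ψ →ₗ[F] LinearMap.ker ψ) = LinearMap.id := by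
        apply LinearMap.ext
        intro y
        simp
      rw [h, ef_id])

theorem EE_apply (g : LinearMap.ker ψ ≃ₗ[F] LinearMap.ker ψ) (x : V) :
    EE ψ z hz g x = ((g (prj ψ z hz x) : LinearMap.ker ψ) : V) + ψ x • z := rfl

/-- the homomorphism -/
noncomputable def EH : (LinearMap.ker ψ ≃ₗ[F] LinearMap.ker ψ) →* (V ≃ₗ[F] V) :=
  MonoidHom.mk' (EE ψ z hz) (by
    intro g g'
    apply LinearEquiv.ext
    intro x
    have h := ef_comp ψ z hz (g : LinearMap.ker ψ →ₗ[F] LinearMap.ker ψ)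
      (g' : LinearMap.ker ψ →ₗ[F] LinearMap.ker ψ) x
    exact h.symm)

theorem EH_apply (g : LinearMap.ker ψ ≃ₗ[F] LinearMap.ker ψ) (x : V) :
    EH ψ z hz g x = ((g (prj ψ z hz x) : LinearMap.ker ψ) : V) + ψ x • z := rfl

theorem EH_mem (g : TG F (LinearMap.ker ψ)) :
    EH ψ z hz (g : LinearMap.ker ψ ≃ₗ[F] LinearMap.ker ψ) ∈ TG F V := by
  have h : TG F (LinearMap.ker ψ) ≤ (TG F V).comap (EH ψ z hz) := by
    unfold TG
    rw [Subgroup.closure_le]
    rintro g ⟨φ, w, hw, rfl⟩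
    apply Subgroup.subset_closure
    refine ⟨φ ∘ₗ prj ψ z hz, (w : V), by rw [LinearMap.comp_apply, prj_mem, hw], ?_⟩
    apply LinearEquiv.ext
    intro x
    rw [EH_apply]
    show ((prj ψ z hz x + φ (prj ψ z hz x) • w : LinearMap.ker ψ) : V) + ψ x • z =
      x + (φ ∘ₗ prj ψ z hz) x • (w : V)
    rw [Submodule.coe_add, Submodule.coe_smul, prj_coe, LinearMap.comp_apply]
    abel
  exact h g.2

/-- the restricted homomorphism -/
noncomputable def sH : TG F (LinearMap.ker ψ) →* TG F V :=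
  MonoidHom.codRestrict ((EH ψ z hz).comp (TG F (LinearMap.ker ψ)).subtype) (TG F V)
    (fun g => EH_mem ψ z hz g)

theorem sH_apply (g : TG F (LinearMap.ker ψ)) (x : V) :
    (sH ψ z hz g : V ≃ₗ[F] V) x =
      (((g : LinearMap.ker ψ ≃ₗ[F] LinearMap.ker ψ) (prj ψ z hz x) : LinearMap.ker ψ) : V) + ψ x • z :=
  rfl

theorem mulTG (g h : TG F V) (x : V) :
    ((g * h : TG F V) : V ≃ₗ[F] V) x = (g : V ≃ₗ[F] V) ((h : V ≃ₗ[F] V) x) := rfl

theorem oneTG (x : V) : ((1 : TG F V) : V ≃ₗ[F] V) x = x := rfl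

theorem invTG (g : TG F V) (x : V) :
    (g : V ≃ₗ[F] V) (((g⁻¹ : TG F V) : V ≃ₗ[F] V) x) = x := by
  have h : (g * g⁻¹ : TG F V) = 1 := mul_inv_cancel g
  have h2 := mulTG g g⁻¹ x
  rw [h] at h2
  exact h2.symm

theorem prj_add (φ : Dual F (LinearMap.ker ψ)) (x y : V) :
    prj ψ z hz (x + φ (prj ψ z hz y) • z) = prj ψ z hz x := by
  rw [map_add, map_smul, prj_z, smul_zero, add_zero]

theorem psi_add (w : LinearMap.ker ψ) (x y : V) : ψ (x + ψ y • (w : V)) = ψ x := by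
  have h : ψ (w : V) = 0 := w.2
  rw [map_add, map_smul, h, smul_zero, add_zero]

/-- NA -/
noncomputable def nA : Subgroup (TG F V) where
  carrier := {g | IsNA ψ z hz g}
  mul_mem' := by
    rintro g g' ⟨φ, hg⟩ ⟨φ', hg'⟩
    refine ⟨φ + φ', fun x => ?_⟩
    rw [mulTG, hg, hg', prj_add, LinearMap.add_apply, add_smul]
    abel
  one_mem' := ⟨0, fun x => by rw [oneTG, LinearMap.zero_apply, zero_smul, add_zero]⟩
  inv_mem' := by
    rintro g ⟨φ, hg⟩
    refine ⟨-φ, fun x => ?_⟩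
    apply (g : V ≃ₗ[F] V).injective
    rw [invTG, hg, LinearMap.neg_apply]
    have e := prj_add ψ z hz (-φ) x x
    rw [LinearMap.neg_apply] at e
    rw [e, neg_smul, neg_add_cancel_right]

/-- NB -/
noncomputable def nB : Subgroup (TG F V) where
  carrier := {g | IsNB ψ g}
  mul_mem' := by
    rintro g g' ⟨w, hg⟩ ⟨w', hg'⟩
    refine ⟨w + w', fun x => ?_⟩
    rw [mulTG, hg, hg', psi_add, Submodule.coe_add, smul_add]
    abel
  one_mem' := ⟨0, fun x => by rw [oneTG, Submodule.coe_zero, smul_zero, add_zero]⟩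
  inv_mem' := by
    rintro g ⟨w, hg⟩
    refine ⟨-w, fun x => ?_⟩
    apply (g : V ≃ₗ[F] V).injective
    rw [invTG, hg, psi_add, Submodule.coe_neg, smul_neg, neg_add_cancel_right]

theorem powA (g : TG F V) (φ : Dual F (LinearMap.ker ψ))
    (hg : ∀ x : V, (g : V ≃ₗ[F] V) x = x + φ (prj ψ z hz x) • z) (n : ℕ) (x : V) :
    ((g ^ n : TG F V) : V ≃ₗ[F] V) x = x + ((n : F) * φ (prj ψ z hz x)) • z := by
  induction n with
  | zero => rw [pow_zero, oneTG, Nat.cast_zero, zero_mul, zero_smul, add_zero]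
  | succ n ih =>
    rw [pow_succ', mulTG, hg, ih, map_add, map_smul, prj_z, smul_zero, add_zero, Nat.cast_succ,
      add_mul, one_mul, add_smul]
    abel

theorem powB (g : TG F V) (w : LinearMap.ker ψ)
    (hg : ∀ x : V, (g : V ≃ₗ[F] V) x = x + ψ x • (w : V)) (n : ℕ) (x : V) :
    ((g ^ n : TG F V) : V ≃ₗ[F] V) x = x + ((n : F) * ψ x) • (w : V) := by
  have h : ψ (w : V) = 0 := w.2
  induction n with
  | zero => rw [pow_zero, oneTG, Nat.cast_zero, zero_mul, zero_smul, add_zero]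
  | succ n ih =>
    rw [pow_succ', mulTG, hg, ih, map_add, map_smul, h, smul_zero, add_zero, Nat.cast_succ,
      add_mul, one_mul, add_smul]
    abel

end

theorem t : LIN := by
  intro F _ _ p _ _ V _ _ _ ψ z hz
  refine ⟨nA ψ z hz, nB ψ, sH ψ z hz, fun g => Iff.rfl, fun g => Iff.rfl, fun g x => rfl,
    ?_, ?_, ?_, ?_, ?_, ?_⟩
  · intro φ
    exact ⟨⟨eA ψ z hz φ, Subgroup.subset_closure ⟨φ ∘ₗ prj ψ z hz, z, _, rfl⟩⟩,
      fun x => eA_apply ψ z hz φ x⟩
  · intro w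
    exact ⟨⟨eB ψ w, Subgroup.subset_closure ⟨ψ, (w : V), w.2, rfl⟩⟩, fun x => eB_apply ψ w x⟩
  · rintro g ⟨φ, hg⟩
    refine ⟨1, ?_⟩
    apply Subtype.ext
    apply LinearEquiv.ext
    intro x
    rw [pow_one, powA ψ z hz g φ hg, CharP.cast_eq_zero F p, zero_mul, zero_smul, add_zero, oneTG]
  · rintro g ⟨w, hg⟩
    refine ⟨1, ?_⟩
    apply Subtype.ext
    apply LinearEquiv.ext
    intro x
    rw [pow_one, powB ψ g w hg, CharP.cast_eq_zero F p, zero_mul, zero_smul, add_zero, oneTG]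
  · rintro g n ⟨φ, hn⟩
    refine ⟨φ ∘ₗ (((g⁻¹ : TG F (LinearMap.ker ψ)) : LinearMap.ker ψ ≃ₗ[F] LinearMap.ker ψ) :
      LinearMap.ker ψ →ₗ[F] LinearMap.ker ψ), fun x => ?_⟩
    rw [mulTG, mulTG, hn, map_add, invTG, map_smul, sH_apply ψ z hz g z, prj_z, map_zero,
      Submodule.coe_zero, zero_add, hz, one_smul]
    congr 2
    rw [LinearMap.comp_apply]
    congr 1
    rw [← map_inv, sH_apply, map_add, prj_mem, map_smul, prj_z, smul_zero, add_zero]
    rfl
  · rintro g n ⟨w, hn⟩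
    refine ⟨(g : LinearMap.ker ψ ≃ₗ[F] LinearMap.ker ψ) w, fun x => ?_⟩
    have h : ψ (w : V) = 0 := w.2
    rw [mulTG, mulTG, hn, map_add, invTG, map_smul, sH_apply ψ z hz g (w : V), prj_mem, h,
      zero_smul, add_zero]
    congr 2
    rw [← map_inv, sH_apply, map_add, map_smul, hz]
    have h2 : ψ (((((g⁻¹ : TG F (LinearMap.ker ψ)) : LinearMap.ker ψ ≃ₗ[F] LinearMap.ker ψ)
        (prj ψ z hz x) : LinearMap.ker ψ)) : V) = 0 :=
      (((g⁻¹ : TG F (LinearMap.ker ψ)) : LinearMap.ker ψ ≃ₗ[F] LinearMap.ker ψ)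
        (prj ψ z hz x)).2
    rw [h2, zero_add, smul_eq_mul, mul_one]

end Pool.Agent.Helper36.EV.LIN
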