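import Pool.Agent.Helper36.EV.MainOf
import Pool.Agent.Helper59.EV.GW
import Pool.Agent.Helper69.EV.REG
import Pool.Agent.Helper8.EV.GAL
import Pool.Agent.Helper65.EV.HIGH
import Pool.Agent.Helper19.EV.CAU
import Pool.Agent.Helper13.EV.LIM
import Pool.Agent.Helper56.EV.PROD

/-!
# Evolution equations in a graded space: the existence theorem
-/

namespace Pool.Agent.Helper36.EV

theorem main : G_MAIN :=
  main_of Helper59.EV.gw Helper69.EV.reg Helper8.EV.gal Helper65.EV.high Helper19.EV.cau
    (Helper13.EV.LIM Helper59.EV.gw)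

theorem main' : G_MAIN' := main

end Pool.Agent.Helper36.EV
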