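import Pool.Agent.Helper36.EV.Goals

/-!
# Evolution equations in a graded space: assembly
-/

namespace Pool.Agent.Helper36.EV

theorem main_of (gw : G_GW) (reg : G_REG) (gal : G_GAL) (high : G_HIGH) (cau : G_CAU)
    (lim : G_LIM) : G_MAIN := by
  intro X H _ _ _ _ _ S E
  exact lim high cau X H S E (gal gw reg X H S E)

end Pool.Agent.Helper36.EV
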